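import Mathlib
import Pool.Agent.Lib.helper21.Mach

set_option autoImplicit false

namespace Pool.Agent.H.MP_8a6a08_lc

open Function Pool.Agent.Lib.helper21.While Pool.Agent.Lib.helper21.Mach Relation

inductive Sym (K : ℕ) : Type
  | nu | a | b | W | Hl
  | Z (sec keep : Bool) (t : Fin K → Bool)
  deriving DecidableEq, Fintype

def Sym.pas {K : ℕ} : Sym K → Bool
  | .nu | .a | .b => true
  | _ => false

section generic
variable {K : ℕ} {D : Type} [DecidableEq D] (δ : D → Sym K → Sym K × Option (D × Bool))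

abbrev Cell (K : ℕ) (D : Type) := Sym K × Option D

def pas (x : Cell K D) : Prop := x.2 = none ∧ x.1.pas

def out (x : Cell K D) (dir : Bool) : Option D :=
  x.2.bind fun h => (δ h x.1).2.bind fun y => if y.2 = dir then some y.1 else none

open Classical in
noncomputable def rule (l x r : Cell K D) : Cell K D :=
  if x = (.W, none) ∨ (¬ pas x ∧ pas l) then (.W, none)
  else (x.2.elim x.1 fun h => (δ h x.1).1, (out δ l true).orElse fun _ => out δ r false)

noncomputable def G (c : ℤ → Cell K D) (v : ℤ) : Cell K D := rule δ (c (v - 1)) (c v) (c (v + 1))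

theorem G_pas (c : ℤ → Cell K D) (h : ∀ v, pas (c v)) : G δ c = c := funext fun v => by
  have h1 := h v
  rw [G, rule, if_neg (by rintro (e | e); exacts [by simp [e, pas, Sym.pas] at h1, e.1 h1])]
  exact Prod.ext (by simp [h1.1]) (by simp [out, (h _).1])

theorem wall {c d : ℤ → Cell K D} {y : ℤ} (h : ∀ v ≥ y, c v = d v) (h1 : ¬ pas (c y))
    (h2 : pas (c (y - 1))) (h3 : pas (d (y - 1))) (t : ℕ) :
    ∀ v ≥ y, (G δ)^[t] c v = (G δ)^[t] d v := by
  have k (c d : ℤ → Cell K D) (h : ∀ v ≥ y, c v = d v) (e : G δ c y = G δ d y) (v) (l : v ≥ y) :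
      G δ c v = G δ d v := by
    rcases l.eq_or_lt with rfl | l
    · exact e
    · rw [G, G, h _ (by omega), h v l.le, h (v + 1) (by omega)]
  have e1 : G δ c y = (.W, none) := if_pos (.inr ⟨h1, h2⟩)
  have e2 : G δ d y = (.W, none) := if_pos (.inr ⟨h y le_rfl ▸ h1, h3⟩)
  have : ∀ t, (G δ)^[t + 1] c y = (.W, none) ∧ ∀ v ≥ y, (G δ)^[t + 1] c v = (G δ)^[t + 1] d v := by
    intro t
    induction t with
    | zero => exact ⟨e1, k c d h (e1.trans e2.symm)⟩
    | succ t ih =>
      rw [iterate_succ_apply', iterate_succ_apply' _ (t + 1)]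
      have e1 : G δ ((G δ)^[t + 1] c) y = _ := if_pos (.inl ih.1)
      exact ⟨e1, k _ _ ih.2 (e1.trans (if_pos (.inl (ih.2 y le_rfl ▸ ih.1))).symm)⟩
  cases t with
  | zero => exact h
  | succ t => exact (this t).2

/-- A tape starting at position `-p`, with a wall on its left. -/
def C (p : ℕ) (F : ℕ → Sym K) (i : ℕ) (h : Option D) (v : ℤ) : Cell K D :=
  if 0 ≤ v + p then (F (v + p).toNat, if v + p = i then h else none)
  else if v + p = -1 then (.W, none) else (.nu, none)

def Good (F : ℕ → Sym K) (i : ℕ) : Prop :=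
  (∀ j, F j ≠ .W) ∧ ∀ j, j + 1 = i ∨ ¬ (F (j + 1)).pas → j = i ∨ ¬ (F j).pas

theorem G_C (p : ℕ) {F : ℕ → Sym K} {i : ℕ} (g : Good F i) (h : D) (j : ℕ) (h' : Option D)
    (e : ∀ k : ℤ, ((δ h (F i)).2.bind fun y => if (if y.2 then k = i + 1 else k + 1 = i) then some y.1
      else none) = if k = j then h' else none) :
    G δ (C p F i (some h)) = C p (update F i (δ h (F i)).1) j h' := by
  funext v
  have o (u : ℤ) (b : Bool) : out δ (C p F i (some h) u) b = if u + p = i then
      (δ h (F i)).2.bind fun y => if y.2 = b then some y.1 else none else none := by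
    unfold C out
    split_ifs with h1 h2 h3 h4 h5 <;> first | omega | simp [*]
  rw [G, rule, o, o]
  by_cases h1 : 0 ≤ v + p
  · obtain ⟨k, hk⟩ := Int.eq_ofNat_of_zero_le h1
    rw [if_neg]
    · simp only [C, if_true, hk, Int.toNat_natCast, Nat.cast_nonneg]
      rw [← e]
      refine Prod.ext (by by_cases l : k = i <;> simp [l]) ?_
      rcases (δ h (F i)).2 with _ | ⟨y, _ | _⟩ <;> simp <;> split_ifs <;> first | omega | simp
    rintro (l | ⟨l1, l2⟩)
    · simp [C, h1, g.1] at l
    rcases k with _ | k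
    · simp [C, pas, Sym.pas, show v - 1 + p = -1 by omega] at l2
    have := g.2 k
    simp only [C, pas, hk, show v - 1 + p = k by omega, Nat.cast_nonneg, if_true,
      Int.toNat_natCast, Nat.cast_inj] at l1 l2
    grind
  by_cases h2 : v + p = -1
  · rw [if_pos (.inl (by simp [C, h2]))]
    simp [C, h2]
  rw [if_neg (by simp [C, h1, h2, pas, Sym.pas]), if_neg (by omega), if_neg (by omega)]
  simp [C, h1, h2]

theorem G_fix (p : ℕ) {F : ℕ → Sym K} (g : (∀ j, F j ≠ .W) ∧ ∀ j, ¬ (F (j + 1)).pas → ¬ (F j).pas) :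
    G δ (C p F 0 none) = C p F 0 none := by
  funext v
  have o (u : ℤ) : (C p F 0 (none : Option D) u).2 = none := by
    unfold C
    split_ifs <;> rfl
  rw [G, rule]
  split_ifs with l
  · rcases l with l | ⟨l1, l2⟩
    · exact l.symm
    unfold C pas at l1 l2
    unfold C
    split_ifs at l1 l2 ⊢ with h1 <;> simp_all [Sym.pas] <;> try omega
    all_goals
      have := g.2 (v - 1 + p).toNat
      rw [show (v - 1 + p).toNat + 1 = (v + p).toNat by omega] at this
      simp_all
  · exact Prod.ext (by simp [o]) (by simp [out, o])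

/-- One step from a configuration without the halting symbol. -/
def R (c d : ℤ → Cell K D) : Prop := G δ c = d ∧ ∀ v, (c v).1 ≠ .Hl

theorem reach {c d : ℤ → Cell K D} (h : ReflTransGen (R δ) c d) :
    ∃ t, (G δ)^[t] c = d ∧ ∀ s < t, ∀ v, ((G δ)^[s] c v).1 ≠ .Hl := by
  induction h using ReflTransGen.head_induction_on with
  | refl => exact ⟨0, rfl, by simp⟩
  | head h _ ih =>
    obtain ⟨t, h1, h2⟩ := ih
    refine ⟨t + 1, by rw [iterate_succ_apply, h.1, h1], fun s l => ?_⟩
    cases s with
    | zero => exact h.2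
    | succ s => rw [iterate_succ_apply, h.1]; exact h2 s (by omega)

theorem mv (p : ℕ) {F : ℕ → Sym K} {i j : ℕ} (g : Good F i) (g' : ∀ j, F j ≠ .Hl) {h h' : D}
    {x : Sym K} {b : Bool} (e : δ h (F i) = (x, some (h', b))) (l : if b then j = i + 1 else j + 1 = i) :
    R δ (C p F i (some h)) (C p (update F i x) j (some h')) := by
  refine ⟨?_, fun v => ?_⟩
  · rw [G_C δ p g h j (some h'), e]
    intro k
    cases b <;> simp_all
    congr 1
    simp
    omega
  · unfold C
    split_ifs <;> simp [g']

theorem halt (p : ℕ) {F : ℕ → Sym K} {i : ℕ} (g : Good F i) (g' : ∀ j, F j ≠ .Hl) {h : D}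
    {x : Sym K} (e : δ h (F i) = (x, none)) :
    R δ (C p F i (some h)) (C p (update F i x) 0 none) := by
  refine ⟨?_, fun v => ?_⟩
  · rw [G_C δ p g h 0 none, e]
    simp [e]
  · unfold C
    split_ifs <;> simp [g']

end generic

inductive Mode : Type
  | R | S | L | E | B (x : Bool)
  deriving DecidableEq, Fintype

def rg : List Prog → ℕ
  | .inc r :: _ | .dec r :: _ | .loop r _ :: _ => r
  | _ => 0

section machine
variable (P : Prog)

def Ls : List (List Prog) := [] :: cl P []

def KK : ℕ := ((Ls P).map rg).sum + 4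

abbrev Q := {x // x ∈ Ls P}

def mk (l : List Prog) : Q P := if h : l ∈ Ls P then ⟨l, h⟩ else ⟨[], List.mem_cons_self⟩

variable {P}

def rd {K : ℕ} : Sym K → Fin K → Bool
  | .Z _ _ t => t
  | .a | .b => fun j => j.1 = 0
  | _ => fun _ => false

def bit {K : ℕ} (x : Sym K) (r : ℕ) : Bool := if h : r < K then rd x ⟨r, h⟩ else false

def sec {K : ℕ} : Sym K → Bool
  | .Z x _ _ => x
  | _ => false

def keep {K : ℕ} : Sym K → Bool
  | .Z _ x _ => x
  | _ => false

def wr {K : ℕ} (x : Sym K) (r : ℕ) (c : Bool) : Sym K :=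
  .Z (sec x) (keep x) fun j => if j.1 = r then c else rd x j

def dl (h : Q P × Mode) (x : Sym (KK P)) : Sym (KK P) × Option ((Q P × Mode) × Bool) :=
  let r := rg h.1.1
  let w := wr x r (bit x r)
  match h.2, h.1.1 with
  | .L, _ => (w, some ((h.1, if sec x then .R else .L), false))
  | .E, k => (wr x r false, some ((mk P k.tail, .L), true))
  | .B c, _ => if keep x then (.Hl, none) else if bit x 3 then
      (if c then .a else .b, some ((h.1, .B true), false)) else (.nu, some ((h.1, .B c), false))
  | _, [] => if x = .nu then (.nu, some ((h.1, .B false), false)) else (w, some ((h.1, .S), true))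
  | _, .inc _ :: k => if bit x r then (w, some ((h.1, .S), true))
      else (wr x r true, some ((mk P k, .L), true))
  | m, .dec _ :: k => if bit x r then (w, some ((h.1, .S), true))
      else if m = .R then (w, some ((mk P k, .L), true)) else (w, some ((h.1, .E), false))
  | _, .seq p q :: k => (w, some ((mk P (p :: q :: k), .L), true))
  | _, .loop r p :: k => (w, some ((mk P (if bit x r then p :: .loop r p :: k else k), .L), true))

def inp {K : ℕ} (N i : ℕ) : Sym K := if i + 1 < N then .a else if i + 1 = N then .b else .nu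

variable (P) (p N : ℕ)

def tp (z : ℕ) (s : St) (i : ℕ) : Sym (KK P) :=
  if i < z then .Z (i = 1) (i < p) fun j => i < s j else inp N i

def Inv (z : ℕ) (s : St) : Prop := p ≤ z ∧ ∀ j < KK P, ∀ i ≥ z, (i < s j ↔ j = 0 ∧ i < N)

variable {P p N}

theorem Inv.rd {z : ℕ} {s : St} (h : Inv P p N z s) (i : ℕ) (j : Fin (KK P)) :
    rd (tp P p N z s i) j = decide (i < s j) := by
  unfold tp inp
  split_ifs with h1 <;> simp only [MP_8a6a08_lc.rd]
  all_goals
    have := h.2 j j.2 i (by omega)
    simp [this]
    omega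

theorem Inv.bit {z : ℕ} {s : St} (h : Inv P p N z s) (i : ℕ) {r : ℕ} (l : r < KK P) :
    bit (tp P p N z s i) r = decide (i < s r) := by
  rw [MP_8a6a08_lc.bit, dif_pos l, h.rd]

theorem Inv.fl (hp : 2 ≤ p) {z : ℕ} {s : St} (h : Inv P p N z s) (i : ℕ) :
    sec (tp P p N z s i) = decide (i = 1) ∧ keep (tp P p N z s i) = decide (i < p) := by
  have := h.1
  unfold tp inp
  split_ifs <;> simp [sec, keep] <;> omega

theorem inp_pas {K : ℕ} (N i : ℕ) : (inp N i : Sym K).pas := by
  unfold inp
  split_ifs <;> rfl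

theorem tp_good {z i : ℕ} (s : St) (l : i ≤ z) :
    Good (tp P p N z s) i ∧ ∀ j, tp P p N z s j ≠ .Hl := by
  refine ⟨⟨fun j => ?_, fun j h => ?_⟩, fun j => ?_⟩
  · unfold tp inp; split_ifs <;> simp
  · have : j < z := h.elim (by omega) fun h => by
      by_contra l
      exact h (by rw [tp, if_neg (by omega)]; exact inp_pas ..)
    simp [tp, this, Sym.pas]
  · unfold tp inp; split_ifs <;> simp

abbrev Cf (P : Prog) (p N z : ℕ) (s : St) (i : ℕ) (q : Q P) (m : Mode) :=
  C p (tp P p N z s) i (some (q, m))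

abbrev RR (P : Prog) := ReflTransGen (R (dl (P := P)))

/-- A writing move. -/
theorem wmv (hp : 2 ≤ p) {z i j r v : ℕ} {s : St} (h : Inv P p N z s) (l : i ≤ z) {q q' : Q P}
    {m m' : Mode} {c b : Bool} (e : dl (q, m) (tp P p N z s i) =
      (wr (tp P p N z s i) r c, some ((q', m'), b))) (hc : c = decide (i < v))
    (hv : ∀ k ≠ i, k < v ↔ k < s r) (hb : if b then j = i + 1 else j + 1 = i) :
    Inv P p N (max z (i + 1)) (update s r v) ∧
      RR P (Cf P p N z s i q m) (Cf P p N (max z (i + 1)) (update s r v) j q' m') := by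
  refine ⟨⟨h.1.trans (le_max_left ..), fun a ha k hk => ?_⟩, .single ?_⟩
  · rw [← h.2 a ha k (by omega), update_apply]
    split_ifs with e
    · rw [hv k (by omega), e]
    · rfl
  · convert mv _ p (tp_good s l).1 (tp_good s l).2 e hb using 2
    funext k
    by_cases e : k = i
    · simp only [e, update_self, wr, h.fl hp, h.rd, hc]
      rw [tp, if_pos (by omega)]
      congr 1
      funext a
      rw [update_apply]
      split_ifs <;> rfl
    · rw [update_of_ne e, tp, tp]
      split_ifs <;> try omega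
      · congr 1
        funext a
        rw [update_apply]
        split_ifs with l
        · simp [hv k e, l]
        · rfl
      · rfl

theorem rg_lt (q : Q P) : rg q.1 < KK P := by
  have := List.single_le_sum (l := (Ls P).map rg) (by simp) _ (List.mem_map_of_mem q.2)
  unfold KK
  omega

/-- A move that keeps the registers. -/
theorem kmv (hp : 2 ≤ p) {z i j : ℕ} {s : St} (h : Inv P p N z s) (l : i ≤ z) {q q' : Q P}
    {m m' : Mode} {b : Bool} (e : dl (q, m) (tp P p N z s i) = (wr (tp P p N z s i) (rg q.1)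
      (bit (tp P p N z s i) (rg q.1)), some ((q', m'), b)))
    (hb : if b then j = i + 1 else j + 1 = i) : Inv P p N (max z (i + 1)) s ∧
      RR P (Cf P p N z s i q m) (Cf P p N (max z (i + 1)) s j q' m') := by
  simpa using wmv hp h l e (h.bit i (rg_lt q)) (fun _ _ => Iff.rfl) hb

def To (P : Prog) (p N : ℕ) (c : ℤ → Cell (KK P) (Q P × Mode)) (s : St) (i : ℕ) (q : Q P)
    (m : Mode) : Prop := ∃ z, i ≤ z ∧ Inv P p N z s ∧ RR P c (Cf P p N z s i q m)

theorem To.k (hp : 2 ≤ p) {c} {s : St} {i j : ℕ} {q q' : Q P} {m m' : Mode} {b : Bool}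
    (h : To P p N c s i q m) (e : ∀ z, Inv P p N z s → dl (q, m) (tp P p N z s i) =
      (wr (tp P p N z s i) (rg q.1) (bit (tp P p N z s i) (rg q.1)), some ((q', m'), b)))
    (hb : if b then j = i + 1 else j + 1 = i) : To P p N c s j q' m' := by
  obtain ⟨z, h1, h2, h3⟩ := h
  have := kmv hp h2 h1 (e z h2) hb
  exact ⟨_, by cases b <;> simp at hb <;> omega, this.1, h3.trans this.2⟩

theorem To.ret (hp : 2 ≤ p) {c} {s : St} {q : Q P} {i : ℕ} (h : To P p N c s (i + 1) q .L) :
    To P p N c s 0 q .R := by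
  induction i with
  | zero => exact h.k hp (fun z l => by simp [dl, l.fl hp]) (b := false) rfl
  | succ i ih => exact ih (h.k hp (fun z l => by simp [dl, l.fl hp]) (b := false) rfl)

theorem To.scan (hp : 2 ≤ p) {c} {s : St} {q : Q P} (h : To P p N c s 0 q .R) (n : ℕ)
    (e : ∀ i < n, ∀ m, m = .R ∨ m = .S → ∀ z, Inv P p N z s → dl (q, m) (tp P p N z s i) =
      (wr (tp P p N z s i) (rg q.1) (bit (tp P p N z s i) (rg q.1)), some ((q, .S), true))) :
    To P p N c s n q (if n = 0 then .R else .S) := by
  induction n with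
  | zero => exact h
  | succ n ih =>
    exact (ih fun i l => e i (by omega)).k hp (e n (by omega) _ (by split_ifs <;> simp)) rfl

theorem mk_val {l : List Prog} (h : l ∈ Ls P) : (mk P l).1 = l := by rw [mk, dif_pos h]

theorem sim (hp : 2 ≤ p) {c} {π : Prog} {s t : St} (h : Run π s t) : ∀ k,
    (∀ x ∈ cl π k, x ∈ Ls P) → To P p N c s 0 (mk P (π :: k)) .R → To P p N c t 0 (mk P k) .R := by
  induction h with
  | inc r s =>
    intro k hk h
    have e := mk_val (hk _ (self_mem _ _))
    have l := rg_lt (mk P (.inc r :: k))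
    rw [e] at l
    change r < _ at l
    obtain ⟨z, h1, h2, h3⟩ := h.scan hp (s r) fun i l' m hm z g => by
      rcases hm with rfl | rfl <;> simp [dl, e, rg, g.bit i l, l']
    have := wmv hp h2 h1 (j := s r + 1) (r := r) (v := s r + 1) (q := mk P (.inc r :: k))
      (q' := mk P k) (m := if s r = 0 then .R else .S) (m' := .L) (c := true) (b := true)
      (by split_ifs <;> simp [dl, e, rg, h2.bit _ l]) (by simp) (by omega) rfl
    exact To.ret hp ⟨_, le_max_right .., this.1, h3.trans this.2⟩
  | dec r s =>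
    intro k hk h
    have e := mk_val (hk _ (self_mem _ _))
    have l := rg_lt (mk P (.dec r :: k))
    rw [e] at l
    change r < _ at l
    have h1 := h.scan hp (s r) fun i l' m hm z g => by
      rcases hm with rfl | rfl <;> simp [dl, e, rg, g.bit i l, l']
    split_ifs at h1 with c
    · rw [show s r - 1 = s r by omega, update_eq_self]
      exact To.ret hp (h.k hp (fun z g => by simp [dl, e, rg, g.bit _ l, c]) (b := true) rfl)
    obtain ⟨z, h1, h2, h3⟩ := h1.k hp (j := s r - 1) (q' := mk P (.dec r :: k)) (m' := .E)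
      (fun z g => by simp [dl, e, rg, g.bit _ l]) (b := false) (by simp; omega)
    have := wmv hp h2 h1 (j := s r - 1 + 1) (r := r) (v := s r - 1) (q := mk P (.dec r :: k))
      (q' := mk P k) (m := .E) (m' := .L) (c := false) (b := true)
      (by simp [dl, e, rg]) (by simp) (by omega) rfl
    exact To.ret hp ⟨_, le_max_right .., this.1, h3.trans this.2⟩
  | seq _ _ i1 i2 =>
    intro k hk h
    have e := mk_val (hk _ (self_mem _ _))
    exact i2 k (fun x l => hk x (by simp [cl, l])) (i1 _ (fun x l => hk x (by simp [cl, l]))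
      (To.ret hp (h.k hp (fun z g => by simp [dl, e]) (b := true) rfl)))
  | @stop r π s h0 =>
    intro k hk h
    have e := mk_val (hk _ (self_mem _ _))
    have l := rg_lt (mk P (.loop r π :: k))
    rw [e] at l
    change r < _ at l
    exact To.ret hp (h.k hp (fun z g => by simp [dl, e, g.bit 0 l, rg, h0]) (b := true) rfl)
  | @go r π s _ _ h0 _ _ i1 i2 =>
    intro k hk h
    have e := mk_val (hk _ (self_mem _ _))
    have l := rg_lt (mk P (.loop r π :: k))
    rw [e] at l
    change r < _ at l
    exact i2 k hk (i1 _ (fun x l => hk x (by simp [cl, l])) (To.ret hp (h.k hp (fun z g => by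
      simp [dl, e, g.bit 0 l, rg, Nat.pos_of_ne_zero h0]) (b := true) rfl)))

/-- The tape during the final sweep. -/
def fin (P : Prog) (p N z : ℕ) (s : St) (j i : ℕ) : Sym (KK P) :=
  if i ≤ j then tp P p N z s i else inp (s 3) i

theorem finish (hp : 2 ≤ p) {c} {s : St} (h : To P p N c s 0 (mk P []) .R) :
    ∃ z, p ≤ z ∧ RR P c (C p (update (fin P p N z s (p - 1)) (p - 1) .Hl) 0 none) := by
  have e : (mk P []).1 = [] := mk_val List.mem_cons_self
  have k3 : 3 < KK P := by unfold KK; omega
  obtain ⟨z, -, h2, h3⟩ := h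
  have : ∀ n ≤ max z N, ∃ y, n ≤ y ∧ z ≤ y ∧ y ≤ max z N ∧ Inv P p N y s ∧
      RR P c (Cf P p N y s n (mk P []) (if n = 0 then .R else .S)) := by
    intro n
    induction n with
    | zero => exact fun _ => ⟨z, by omega, le_rfl, by omega, h2, h3⟩
    | succ n ih =>
      intro l
      obtain ⟨y, l1, l2, l3, h4, h5⟩ := ih (by omega)
      have n1 : tp P p N y s n ≠ .nu := by
        unfold tp inp
        split_ifs <;> first | omega | simp
      have := kmv hp h4 l1 (j := n + 1) (q := mk P []) (q' := mk P []) (m' := .S) (b := true)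
        (m := if n = 0 then .R else .S) (by split_ifs <;> simp [dl, e, n1]) rfl
      exact ⟨_, by omega, by omega, by omega, this.1, h5.trans this.2⟩
  obtain ⟨y, l1, l2, l3, h4, h5⟩ := this _ le_rfl
  have l4 := h4.1
  have l5 : s 3 ≤ y := by
    have := h4.2 3 k3 y le_rfl
    omega
  have gd (j) (l : j ≤ y) : Good (fin P p N y s j) j ∧ ∀ i, fin P p N y s j i ≠ .Hl := by
    refine ⟨⟨fun i => ?_, fun i h => ?_⟩, fun i => ?_⟩
    · unfold fin tp inp; split_ifs <;> simp
    · have : i < j := h.elim (by omega) fun h => by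
        by_contra l
        exact h (by rw [fin, if_neg (by omega)]; exact inp_pas ..)
      simp [fin, tp, this.le, show i < y by omega, Sym.pas]
    · unfold fin tp inp; split_ifs <;> simp
  have up (j) : update (fin P p N y s (j + 1)) (j + 1) (inp (s 3) (j + 1)) = fin P p N y s j := by
    funext i
    rw [update_apply, fin, fin]
    split_ifs <;> first | omega | simp [*]
  have : ∀ d j, j + d + 1 = y → p ≤ j + 1 →
      RR P c (C p (fin P p N y s j) j (some (mk P [], .B (j + 1 < s 3)))) := by
    intro d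
    induction d with
    | zero =>
      rintro j rfl _
      have e1 : tp P p N (j + 1) s = fin P p N (j + 1) s (j + 1) := funext fun i => by
        unfold fin tp inp
        split_ifs <;> first | omega | rfl
      have e2 : fin P p N (j + 1) s (j + 1) (j + 1) = .nu := by
        unfold fin tp inp
        split_ifs <;> first | omega | rfl
      rw [show max z N = j + 1 by omega, if_neg (by omega), Cf, e1] at h5
      refine h5.tail (up j ▸ mv _ p (gd _ le_rfl).1 (gd _ le_rfl).2 (b := false) ?_ rfl)
      simp [dl, e, e2, inp, show ¬ j + 1 < s 3 by omega, show ¬ j + 1 + 1 < s 3 by omega,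
        show ¬ j + 1 + 1 = s 3 by omega]
    | succ d ih =>
      intro j l l'
      refine (ih (j + 1) (by omega) (by omega)).tail
        (up j ▸ mv _ p (gd _ (by omega)).1 (gd _ (by omega)).2 (b := false) ?_ rfl)
      simp only [dl, fin, le_refl, if_true, h4.fl hp, h4.bit _ k3, inp, decide_eq_true_eq]
      split_ifs <;> first | omega | simp [*]
  refine ⟨y, l4, (this (y - p) (p - 1) (by omega) (by omega)).tail
    (halt _ p (gd _ (by omega)).1 (gd _ (by omega)).2 ?_)⟩
  simp [dl, fin, h4.fl hp, show p - 1 < p by omega]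

end machine

end Pool.Agent.H.MP_8a6a08_lc
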