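import Mathlib
import Pool.Agent.Lib.helper21.While

set_option autoImplicit false

namespace Pool.Agent.H.MP_8a6a08_lc

open Function Pool.Agent.Lib.helper21.While Nat.Partrec.Code

def s0 (p N : ℕ) : St := update (update (fun _ => 0) 0 N) 1 p

def ev (v : List.Vector ℕ 3) : Option ℕ :=
  evaln (v.get 2) (Denumerable.ofNat _ (v.get 1 - 2)) (v.get 0 - v.get 1 - 1)

theorem ev_prim : Primrec ev :=
  primrec_evaln.comp (((Primrec.vector_get.comp .id (.const 2)).pair ((Primrec.ofNat _).comp
    (Primrec.nat_sub.comp (Primrec.vector_get.comp .id (.const 1)) (.const 2)))).pair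
    (Primrec.nat_sub.comp (Primrec.nat_sub.comp (Primrec.vector_get.comp .id (.const 0))
      (Primrec.vector_get.comp .id (.const 1))) (.const 1)))

theorem univ : ∃ P : Prog, ∀ e n m, m ∈ eval (Denumerable.ofNat _ e) n →
    ∃ t, Run P (s0 (e + 2) (e + 2 + n + 1)) t ∧ t 3 = e + 2 + m + 1 := by
  obtain ⟨Q, hQ⟩ := prim_prog (Nat.Primrec'.prim_iff.2 (Primrec.cond
    (Primrec.option_isSome.comp ev_prim) (.const 0) (.const 1))) ![0, 1, 2] 4 5
    (by decide) (by decide) (by decide)
  obtain ⟨R, hR⟩ := prim_prog (Nat.Primrec'.prim_iff.2 (Primrec.succ.comp (Primrec.nat_add.comp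
    (Primrec.vector_get.comp .id (.const 1)) (Primrec.option_getD.comp ev_prim (.const 0)))))
    ![0, 1, 2] 3 5 (by decide) (by decide) (by decide)
  let B : Prog := .seq (clr 4) (.seq (.inc 2) Q)
  refine ⟨.seq (.inc 4) (.seq (.loop 4 B) R), fun e n m h => ?_⟩
  let S (k v : ℕ) : St := update (update (s0 (e + 2) (e + 2 + n + 1)) 2 k) 4 v
  let E k := evaln k (Denumerable.ofNat _ e) n
  have h0 k v : ev (List.Vector.ofFn fun i => S k v (![0, 1, 2] i)) = E k := by
    simp [ev, S, s0, E, show e + 2 + n - (e + 1) - 1 = n by omega]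
  have h1 k v r (l : 5 ≤ r) : S k v r = 0 := by
    simp only [S, s0, update_apply]; split_ifs <;> omega
  have hB k v : Run B (S k v) (S (k + 1) (bif (E (k + 1)).isSome then 0 else 1)) := by
    refine .seq (run_clr _ _) (.seq ((Run.inc _ _).of_eq (u := S (k + 1) 0) fun x => ?_)
      ((hQ _ (h1 _ _)).of_eq fun x => ?_))
    · simp only [S, update_apply]; split_ifs <;> omega
    · rw [h0]; simp [S]
  have h2 : ∃ k, (E (k + 1)).isSome := (evaln_complete.1 h).imp fun k l =>
    Option.isSome_of_mem (evaln_mono k.le_succ l)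
  classical
  have h3 := Run.iter 4 B (Nat.find h2 + 1)
    (fun k => S k (Nat.casesOn k 1 fun k => bif (E (k + 1)).isSome then 0 else 1))
    (by simp [S, Nat.find_spec h2]) fun k hk => ⟨by
      cases k with
      | zero => simp [S]
      | succ k => simp [S, Nat.find_min h2 (by omega : k < Nat.find h2)], hB _ _⟩
  refine ⟨_, .seq ((Run.inc _ _).of_eq (u := S 0 1) fun x => ?_) (.seq h3 (hR _ (h1 _ _))), ?_⟩
  · by_cases l : x = 4 <;> by_cases l' : x = 2 <;> simp [S, s0, update_apply, l, l']
  · obtain ⟨x, hx⟩ := Option.isSome_iff_exists.1 (Nat.find_spec h2)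
    obtain rfl := Part.mem_unique h (evaln_sound hx)
    rw [update_self, h0, hx]
    simp [S, s0]

end Pool.Agent.H.MP_8a6a08_lc
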